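import Pool.Agent.WR2.StmtsC

/-!
# Squad WR2, row ECB: errors for large n
-/

set_option autoImplicit false

namespace Pool.Agent.WR2.H62

open Pool.Agent.WIR Pool.Agent.WR2
open scoped BigOperators ENNReal

theorem exp_cube {x : ℝ} (hx : 0 < x) : Real.exp (-x) ≤ 6 / x ^ 3 := by
  have h1 : x ^ 3 / (Nat.factorial 3 : ℝ) ≤ Real.exp x := Real.pow_div_factorial_le_exp x hx.le 3
  have h2 : ((Nat.factorial 3 : ℕ) : ℝ) = 6 := by norm_num [Nat.factorial]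
  rw [h2] at h1
  rw [Real.exp_neg, inv_eq_one_div, div_le_div_iff₀ (Real.exp_pos x) (by positivity)]
  have h3 : 0 < Real.exp x := Real.exp_pos x
  linarith

theorem ao_nonneg {t a : ℕ} {f : ℕ → ℕ → ℝ} (hf : ∀ l m, 0 ≤ f l m) : 0 ≤ AO t f a := by
  unfold AO PS
  apply Finset.sum_nonneg
  intro l _
  apply mul_nonneg (by positivity)
  exact Finset.sum_nonneg (fun b _ => hf l b)

theorem real_bd {C0 : ℝ} (hC0 : 0 ≤ C0) {u r y : ℕ} (hu : 2000 ≤ u) (hr : r = u / 1000)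
    (hy : 3 * r ≤ y) (hy2 : 70 * (y + 1) ≤ u) :
    C0 * (y + 1) / ((r : ℝ) + 1) ^ 4 + Real.exp (-((r : ℝ) / 6)) + Real.exp (-((y : ℝ) / 120)) ≤
      (C0 * 10 ^ 12 + 1296 * 1500 ^ 3 + 6 * 60000 ^ 3) / (u : ℝ) ^ 3 := by
  have h1 : u < 1000 * (r + 1) := by omega
  have h2 : 2 ≤ r := by omega
  have h1' : (u : ℝ) ≤ 1000 * ((r : ℝ) + 1) := by exact_mod_cast h1.le
  have h2' : (2 : ℝ) ≤ r := by exact_mod_cast h2
  have hu' : (2000 : ℝ) ≤ u := by exact_mod_cast hu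
  have hy' : 3 * (r : ℝ) ≤ y := by exact_mod_cast hy
  have hy2' : 70 * ((y : ℝ) + 1) ≤ u := by exact_mod_cast hy2
  have hu0 : (0 : ℝ) < u := by linarith
  have e1 : C0 * (y + 1) / ((r : ℝ) + 1) ^ 4 ≤ C0 * 10 ^ 12 / (u : ℝ) ^ 3 := by
    have q1 : (u : ℝ) / 1000 ≤ (r : ℝ) + 1 := by linarith
    have q2 : ((u : ℝ) / 1000) ^ 4 ≤ ((r : ℝ) + 1) ^ 4 :=
      pow_le_pow_left₀ (by positivity) q1 4
    have q3 : C0 * (y + 1) ≤ C0 * u := mul_le_mul_of_nonneg_left (by linarith) hC0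
    calc C0 * (y + 1) / ((r : ℝ) + 1) ^ 4 ≤ C0 * u / ((r : ℝ) + 1) ^ 4 :=
          div_le_div_of_nonneg_right q3 (by positivity)
      _ ≤ C0 * u / ((u : ℝ) / 1000) ^ 4 :=
          div_le_div_of_nonneg_left (by positivity) (by positivity) q2
      _ = C0 * 10 ^ 12 / (u : ℝ) ^ 3 := by
          field_simp
          norm_num
  have e2 : Real.exp (-((r : ℝ) / 6)) ≤ 1296 * 1500 ^ 3 / (u : ℝ) ^ 3 := by
    have q1 : (u : ℝ) / 1500 ≤ r := by linarith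
    have q2 : Real.exp (-((r : ℝ) / 6)) ≤ 6 / ((r : ℝ) / 6) ^ 3 := exp_cube (by positivity)
    have q3 : ((u : ℝ) / 1500 / 6) ^ 3 ≤ ((r : ℝ) / 6) ^ 3 :=
      pow_le_pow_left₀ (by positivity) (by linarith) 3
    calc Real.exp (-((r : ℝ) / 6)) ≤ 6 / ((r : ℝ) / 6) ^ 3 := q2
      _ ≤ 6 / ((u : ℝ) / 1500 / 6) ^ 3 :=
          div_le_div_of_nonneg_left (by norm_num) (by positivity) q3
      _ = 1296 * 1500 ^ 3 / (u : ℝ) ^ 3 := by
          field_simp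
          norm_num
  have e3 : Real.exp (-((y : ℝ) / 120)) ≤ 6 * 60000 ^ 3 / (u : ℝ) ^ 3 := by
    have q1 : (u : ℝ) / 60000 ≤ (y : ℝ) / 120 := by linarith
    have q2 : Real.exp (-((y : ℝ) / 120)) ≤ 6 / ((y : ℝ) / 120) ^ 3 :=
      exp_cube (by linarith)
    have q3 : ((u : ℝ) / 60000) ^ 3 ≤ ((y : ℝ) / 120) ^ 3 :=
      pow_le_pow_left₀ (by positivity) q1 3
    calc Real.exp (-((y : ℝ) / 120)) ≤ 6 / ((y : ℝ) / 120) ^ 3 := q2
      _ ≤ 6 / ((u : ℝ) / 60000) ^ 3 :=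
          div_le_div_of_nonneg_left (by norm_num) (by positivity) q3
      _ = 6 * 60000 ^ 3 / (u : ℝ) ^ 3 := by
          field_simp
  have e4 : (C0 * 10 ^ 12 + 1296 * 1500 ^ 3 + 6 * 60000 ^ 3) / (u : ℝ) ^ 3 =
      C0 * 10 ^ 12 / (u : ℝ) ^ 3 + 1296 * 1500 ^ 3 / (u : ℝ) ^ 3 + 6 * 60000 ^ 3 / (u : ℝ) ^ 3 := by
    ring
  rw [e4]
  linarith

theorem ecb (h1 : AvaStmt) (h2 : BsmStmt) (h3 : CmpStmt) (h4 : FcmStmt) (h5 : CovStmt) :
    EcbStmt := by
  obtain ⟨C0, hC0, hcmp⟩ := h3 4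
  obtain ⟨C1, hC1⟩ : ∃ C1 : ℝ, C1 = C0 * 10 ^ 12 + 1296 * 1500 ^ 3 + 6 * 60000 ^ 3 := ⟨_, rfl⟩
  have hC1p : 0 ≤ C1 := by
    rw [hC1]
    have : (0 : ℝ) ≤ C0 := by linarith
    positivity
  refine ⟨2 * C1, by positivity, ?_⟩
  intro q hq
  have key : ∀ n : ℕ, ∃ en : ℕ → ℝ, (∀ a, 0 ≤ en a) ∧
      (q ≤ 100 * n → ∑ a ∈ Finset.Icc 1 (3 ^ q), en a ≤ 2 * C1 * 3 ^ q / (n : ℝ) ^ 2) ∧
      (∀ a, q ≤ 100 * n → 0 < a → ∃ j L : ℕ,
        2 ^ n * (Tht (tj q j) ((tj q j + q) / 1000) a - en a)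
          ≤ 2 * ∑ l ∈ Finset.range L, (uT (Mz n l) l a : ℝ)) := by
    intro n
    by_cases hn : q ≤ 100 * n
    · obtain ⟨j, hj1, hj2⟩ := h5 q n hq hn
      choose! y hy1 hy2 hy3 using hj2
      obtain ⟨t, ht⟩ : ∃ t, t = tj q j := ⟨_, rfl⟩
      rw [← ht] at hj1 hy1 hy2 hy3
      obtain ⟨u, hu⟩ : ∃ u, u = t + q := ⟨_, rfl⟩
      rw [← hu] at hj1 hy2 hy3
      obtain ⟨r, hr⟩ : ∃ r, r = u / 1000 := ⟨_, rfl⟩
      rw [← hr] at hy2
      have hf0 : ∀ l1 m : ℕ, (0 : ℝ) ≤ max 0 (wr r m - gf l1 (y l1) r m) := fun l1 m =>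
        le_max_left _ _
      refine ⟨AO t (fun l1 m => max 0 (wr r m - gf l1 (y l1) r m)), ?_, ?_, ?_⟩
      · intro a
        exact ao_nonneg hf0
      · intro _
        have hB : 0 ≤ C1 / (u : ℝ) ^ 3 := by positivity
        have hbs := h2 t q (u / 10) (fun l1 m => max 0 (wr r m - gf l1 (y l1) r m))
          (C1 / (u : ℝ) ^ 3) hB hf0 (fun l hl => by
            have g1 := hy2 l hl
            have g2 := hy3 l hl
            have g3 := hcmp l (y l) r (by omega) g1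
            have g4 := h1.1 (7 * (y l + 1)) (u / 10) _ g3.1 (by omega)
            refine ⟨g4.1, ?_⟩
            rw [g4.2]
            refine le_trans g3.2 ?_
            rw [hC1]
            exact real_bd (by linarith) (by omega) hr g1 g2) (by omega)
        refine le_trans hbs ?_
        have hu0 : 0 < u := by omega
        have hu0' : (0 : ℝ) < u := by exact_mod_cast hu0
        have hn0 : 0 < n := by omega
        have hn0' : (0 : ℝ) < n := by exact_mod_cast hn0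
        have ht1 : (t : ℝ) + 1 ≤ u := by
          have : t + 1 ≤ u := by omega
          exact_mod_cast this
        have hnu : (n : ℝ) ≤ u := by
          have : n ≤ u := hj1
          exact_mod_cast this
        calc 2 * 3 ^ q * ((t : ℝ) + 1) * (C1 / (u : ℝ) ^ 3)
            ≤ 2 * 3 ^ q * (u : ℝ) * (C1 / (u : ℝ) ^ 3) := by
              apply mul_le_mul_of_nonneg_right _ hB
              exact mul_le_mul_of_nonneg_left ht1 (by positivity)
          _ = 2 * C1 * 3 ^ q / (u : ℝ) ^ 2 := by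
              field_simp
          _ ≤ 2 * C1 * 3 ^ q / (n : ℝ) ^ 2 := by
              apply div_le_div_of_nonneg_left (by positivity) (by positivity)
              exact pow_le_pow_left₀ hn0'.le hnu 2
      · intro a _ ha
        obtain ⟨L, hL⟩ := h4 n t r a y ha hy1
        refine ⟨j, L, ?_⟩
        rw [← ht, ← hu, ← hr]
        exact hL
    · exact ⟨fun _ => 0, fun _ => le_refl _, fun h => absurd h hn, fun a h => absurd h hn⟩
  choose e he1 he2 he3 using key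
  exact ⟨e, he1, he2, he3⟩

end Pool.Agent.WR2.H62
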